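import Pool.Agent.N929.ON.Stm

set_option autoImplicit false

/-!
# ON/SURG: changing one face between two states of the path
-/

namespace Pool.Agent.N339.ON

open Pool.Agent.N929.ON

theorem iter_val (hinj : S_INJ) (σ : ℤ × ℤ → Bool) {s : St} (hs : Val σ s) (i : ℕ) :
    Val σ ((step σ)^[i] s) := by
  induction i with
  | zero => exact hs
  | succ i ih =>
    rw [Function.iterate_succ_apply']
    exact (hinj σ).1 _ ih

theorem iter_inj (hinj : S_INJ) (σ : ℤ × ℤ → Bool) {s t : St} (hs : Val σ s) (ht : Val σ t)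
    (i : ℕ) (h : (step σ)^[i] s = (step σ)^[i] t) : s = t := by
  induction i with
  | zero => exact h
  | succ i ih =>
    rw [Function.iterate_succ_apply', Function.iterate_succ_apply'] at h
    exact ih ((hinj σ).2 _ _ (iter_val hinj σ hs i) (iter_val hinj σ ht i) h)

theorem agree {σ σ' : ℤ × ℤ → Bool} {f : ℤ × ℤ} (hf : ∀ g, g ≠ f → σ' g = σ g) {s : St}
    (hs : ¬ Tch f s) : step σ' s = step σ s ∧ (Val σ' s ↔ Val σ s) := by
  unfold Tch at hs
  push Not at hs
  obtain ⟨h1, h2, h3⟩ := hs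
  constructor
  · unfold step
    rw [hf _ h3]
  · unfold Val
    rw [hf _ h1, hf _ h2]

/-- a state between the two given states is not reached again, and is not periodic -/
theorem not_touch (hinj : S_INJ) {σ : ℤ × ℤ → Bool} {f : ℤ × ℤ} {s₀ u : St} {m p : ℕ}
    (hv : Val σ s₀) (hret : ∀ i, 1 ≤ i → (step σ)^[i] s₀ ≠ s₀) (hu : (step σ)^[m] s₀ = u)
    (ht : ∀ s, Val σ s → Tch f s → ∃ i < p, (step σ)^[i] u = s) (i : ℕ) :
    ¬ Tch f ((step σ)^[m + p + i] s₀) := by
  intro hc
  obtain ⟨i', hi', h⟩ := ht _ (iter_val hinj σ hv _) hc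
  rw [← hu, ← Function.iterate_add_apply] at h
  have e : m + p + i = (i' + m) + (p + i - i') := by omega
  rw [e, Function.iterate_add_apply _ (i' + m)] at h
  have h2 := iter_inj hinj σ hv (iter_val hinj σ hv _) (i' + m) h
  exact hret _ (by omega) h2.symm

theorem periodic_not_touch (hinj : S_INJ) {σ : ℤ × ℤ → Bool} {f : ℤ × ℤ} {s₀ u : St} {m p : ℕ}
    (hv : Val σ s₀) (hret : ∀ i, 1 ≤ i → (step σ)^[i] s₀ ≠ s₀) (hu : (step σ)^[m] s₀ = u)
    (ht : ∀ s, Val σ s → Tch f s → ∃ i < p, (step σ)^[i] u = s) {s : St} (hs : Val σ s) {k : ℕ}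
    (hk : 1 ≤ k) (hper : (step σ)^[k] s = s) (j : ℕ) : ¬ Tch f ((step σ)^[j] s) := by
  intro hc
  obtain ⟨i', hi', h⟩ := ht _ (iter_val hinj σ hs _) hc
  rw [← hu, ← Function.iterate_add_apply] at h
  apply hret k hk
  apply iter_inj hinj σ (iter_val hinj σ hv _) hv (i' + m)
  rw [← Function.iterate_add_apply, add_comm, Function.iterate_add_apply, h,
    ← Function.iterate_add_apply, add_comm, Function.iterate_add_apply, hper]

theorem loops_sub (hinj : S_INJ) {σ σ' : ℤ × ℤ → Bool} {f : ℤ × ℤ}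
    (hf : ∀ g, g ≠ f → σ' g = σ g) {s₀ u : St} {m p : ℕ}
    (hv : Val σ s₀) (hret : ∀ i, 1 ≤ i → (step σ)^[i] s₀ ≠ s₀) (hu : (step σ)^[m] s₀ = u)
    (ht : ∀ s, Val σ s → Tch f s → ∃ i < p, (step σ)^[i] u = s) : loops σ ⊆ loops σ' := by
  rintro O ⟨s, hs, ⟨k, hk, hper⟩, rfl⟩
  have h1 := periodic_not_touch hinj hv hret hu ht hs hk hper
  have h2 : ∀ j, (step σ')^[j] s = (step σ)^[j] s := by
    intro j
    induction j with
    | zero => rfl
    | succ j ih =>
      rw [Function.iterate_succ_apply', Function.iterate_succ_apply', ih]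
      exact (agree hf (h1 j)).1
  refine ⟨s, (agree hf (h1 0)).2.mpr hs, ⟨k, hk, by rw [h2, hper]⟩, ?_⟩
  ext t
  constructor
  · rintro ⟨i, hi⟩
    exact ⟨i, by rw [h2]; exact hi⟩
  · rintro ⟨i, hi⟩
    exact ⟨i, by rw [← h2]; exact hi⟩

theorem surg (hinj : S_INJ) : S_SURG := by
  intro σ σ' f hf s₀ u v m p q hv hv' hret hret' hu hu' hp hq ht ht'
  refine ⟨?_, ?_⟩
  · intro i
    induction i with
    | zero =>
      rw [add_zero, add_zero, add_comm m q, add_comm m p, Function.iterate_add_apply,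
        Function.iterate_add_apply, hu, hu', hp, hq]
    | succ i ih =>
      rw [← add_assoc, ← add_assoc, Function.iterate_succ_apply', Function.iterate_succ_apply', ih]
      exact (agree hf (not_touch hinj hv hret hu ht i)).1
  · apply Set.Subset.antisymm
    · exact loops_sub hinj (fun g hg => (hf g hg).symm) hv' hret' hu' ht'
    · exact loops_sub hinj hf hv hret hu ht

end Pool.Agent.N339.ON
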